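import Pool.Agent.helper17.CH.SpecV

/-! Project CH (MP_5628fe_nt), row LB: lower bound for the rough L series near the line Re s = 1. -/

set_option autoImplicit false

namespace Pool.Agent.CH

open Finset ArithmeticFunction

private theorem LB_rgh_one (y : ℝ) : rgh y 1 :=
  ⟨one_ne_zero, fun _ hp hd => absurd (Nat.dvd_one.1 hd) hp.one_lt.ne'⟩

private theorem LB_rgh_mul {y : ℝ} {a b : ℕ} : rgh y (a * b) ↔ rgh y a ∧ rgh y b := by
  constructor
  · rintro ⟨h1, h2⟩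
    exact ⟨⟨left_ne_zero_of_mul h1, fun p hp hd => h2 p hp (hd.mul_right b)⟩,
      ⟨right_ne_zero_of_mul h1, fun p hp hd => h2 p hp (hd.mul_left a)⟩⟩
  · rintro ⟨⟨h1, h2⟩, ⟨h3, h4⟩⟩
    refine ⟨mul_ne_zero h1 h3, fun p hp hd => ?_⟩
    rcases hp.dvd_mul.1 hd with h | h
    · exact h2 p hp h
    · exact h4 p hp h

open Classical in
private noncomputable def LB_f {q : ℕ} (χ : DirichletCharacter ℂ q) (y : ℝ) {s : ℂ} (hs : s ≠ 0) :
    ℕ →*₀ ℂ where
  toFun n := if rgh y n then dirichletSummandHom χ hs n else 0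
  map_zero' := by
    rw [if_neg (fun h => h.1 rfl)]
  map_one' := by
    rw [if_pos (LB_rgh_one y), map_one]
  map_mul' m n := by
    by_cases hm : rgh y m
    · by_cases hn : rgh y n
      · rw [if_pos (LB_rgh_mul.2 ⟨hm, hn⟩), if_pos hm, if_pos hn, map_mul]
      · rw [if_neg (fun h => hn (LB_rgh_mul.1 h).2), if_neg hn, mul_zero]
    · rw [if_neg (fun h => hm (LB_rgh_mul.1 h).1), if_neg hm, zero_mul]

open Classical in
private theorem LB_f_pos {q : ℕ} (χ : DirichletCharacter ℂ q) (y : ℝ) {s : ℂ} (hs : s ≠ 0) {n : ℕ}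
    (h : rgh y n) : LB_f χ y hs n = χ n * (n : ℂ) ^ (-s) := by
  change (if rgh y n then _ else _) = _
  rw [if_pos h]
  rfl

open Classical in
private theorem LB_f_neg {q : ℕ} (χ : DirichletCharacter ℂ q) (y : ℝ) {s : ℂ} (hs : s ≠ 0) {n : ℕ}
    (h : ¬ rgh y n) : LB_f χ y hs n = 0 := by
  change (if rgh y n then _ else _) = _
  rw [if_neg h]

private theorem LB_f_sum {q : ℕ} (χ : DirichletCharacter ℂ q) (y : ℝ) {s : ℂ} (hs : 1 < s.re) :
    Summable fun n => ‖LB_f χ y (Complex.ne_zero_of_one_lt_re hs) n‖ := by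
  refine Summable.of_nonneg_of_le (fun n => norm_nonneg _) (fun n => ?_)
    (summable_dirichletSummand χ hs)
  by_cases h : rgh y n
  · rw [LB_f_pos χ y _ h]
    exact le_rfl
  · rw [LB_f_neg χ y _ h, norm_zero]
    exact norm_nonneg _

private theorem LB_RD_eq {q : ℕ} (χ : DirichletCharacter ℂ q) (y : ℝ) {s : ℂ} (hs : 1 < s.re) :
    RD χ y 0 s = ∑' n, LB_f χ y (Complex.ne_zero_of_one_lt_re hs) n := by
  unfold RD
  refine tsum_congr fun n => ?_
  rcases n.eq_zero_or_pos with rfl | hn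
  · rw [LSeries.term_zero, _root_.map_zero]
  · rw [LSeries.term_of_ne_zero hn.ne']
    by_cases h : rgh y n
    · rw [if_pos h, LB_f_pos χ y _ h, pow_zero, mul_one, Complex.cpow_neg, div_eq_mul_inv]
    · rw [if_neg h, LB_f_neg χ y _ h, zero_div]

private theorem LB_exp {q : ℕ} (χ : DirichletCharacter ℂ q) (y : ℝ) {s : ℂ} (hs : 1 < s.re) :
    Complex.exp (∑' p : Nat.Primes,
      -Complex.log (1 - LB_f χ y (Complex.ne_zero_of_one_lt_re hs) p)) = RD χ y 0 s := by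
  rw [LB_RD_eq χ y hs]
  exact EulerProduct.exp_tsum_primes_log_eq_tsum (LB_f_sum χ y hs)

private theorem LB_logsum {q : ℕ} (χ : DirichletCharacter ℂ q) (y : ℝ) {s : ℂ} (hs : 1 < s.re) :
    Summable fun p : Nat.Primes =>
      -Complex.log (1 - LB_f χ y (Complex.ne_zero_of_one_lt_re hs) p) := by
  have h1 := (LB_f_sum χ y hs).of_norm
  have h2 := h1.comp_injective (i := fun p : Nat.Primes => (p : ℕ)) Subtype.val_injective
  exact h2.clog_one_sub.neg

private lemma LB_comb' {a : ℝ} (ha₀ : 0 ≤ a) (ha₁ : a < 1) {z : ℂ} (hz : ‖z‖ = 1) :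
      0 ≤ 3 * (-Complex.log (1 - a)).re + 4 * (-Complex.log (1 - a * z)).re +
        (-Complex.log (1 - a * z ^ 2)).re := by
  have hac₀ : ‖(a : ℂ)‖ < 1 := by
    simp only [Complex.norm_of_nonneg ha₀, ha₁]
  have hac₁ : ‖a * z‖ < 1 := by rwa [norm_mul, hz, mul_one]
  have hac₂ : ‖a * z ^ 2‖ < 1 := by rwa [norm_mul, norm_pow, hz, one_pow, mul_one]
  rw [← ((Complex.hasSum_re <| Complex.hasSum_taylorSeries_neg_log hac₀).mul_left 3).add
    ((Complex.hasSum_re <| Complex.hasSum_taylorSeries_neg_log hac₁).mul_left 4) |>.add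
    (Complex.hasSum_re <| Complex.hasSum_taylorSeries_neg_log hac₂) |>.tsum_eq]
  refine tsum_nonneg fun n ↦ ?_
  simp only [← Complex.ofReal_pow, Complex.div_natCast_re, Complex.ofReal_re, mul_pow,
    Complex.mul_re, Complex.ofReal_im, zero_mul, sub_zero]
  rcases n.eq_zero_or_pos with rfl | hn
  · simp
  · simp only [← mul_div_assoc, ← add_div]
    refine div_nonneg ?_ n.cast_nonneg
    rw [← pow_mul, pow_mul', sq, Complex.mul_re, ← sq, ← sq, ← Complex.sq_norm_sub_sq_re, norm_pow,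
      hz]
    have h : 0 ≤ 2 * a ^ n * ((z ^ n).re + 1) ^ 2 := by positivity
    have h2 : 3 * a ^ n + 4 * (a ^ n * (z ^ n).re) + a ^ n * ((z ^ n).re ^ 2 -
      ((1 ^ n) ^ 2 - (z ^ n).re ^ 2)) = 2 * a ^ n * ((z ^ n).re + 1) ^ 2 := by
      rw [one_pow]; ring
    linarith [h2]

private theorem LB_341 {q : ℕ} (χ : DirichletCharacter ℂ q) (y : ℝ) {σ : ℝ} (hσ : 1 < σ) (t : ℝ) :
    1 ≤ ‖RD (1 : DirichletCharacter ℂ q) y 0 (σ : ℂ)‖ ^ 3 *
      ‖RD χ y 0 ((σ : ℂ) + Complex.I * t)‖ ^ 4 *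
      ‖RD (χ ^ 2) y 0 ((σ : ℂ) + 2 * Complex.I * t)‖ := by
  have h₀ : 1 < ((σ : ℂ)).re := by simpa using hσ
  have h₁ : 1 < ((σ : ℂ) + Complex.I * t).re := by simpa using hσ
  have h₂ : 1 < ((σ : ℂ) + 2 * Complex.I * t).re := by simpa using hσ
  have H₀ := LB_logsum (1 : DirichletCharacter ℂ q) y h₀
  have H₁ := LB_logsum χ y h₁
  have H₂ := LB_logsum (χ ^ 2) y h₂
  have hsum₀ := (Complex.hasSum_re H₀.hasSum).summable.mul_left 3
  have hsum₁ := (Complex.hasSum_re H₁.hasSum).summable.mul_left 4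
  have hsum₂ := (Complex.hasSum_re H₂.hasSum).summable
  rw [← LB_exp _ y h₀, ← LB_exp χ y h₁, ← LB_exp _ y h₂]
  rw [Complex.norm_exp, Complex.norm_exp, Complex.norm_exp, ← Real.exp_nat_mul, ← Real.exp_nat_mul,
    ← Real.exp_add, ← Real.exp_add, Real.one_le_exp_iff]
  rw [Complex.re_tsum H₀, Complex.re_tsum H₁, Complex.re_tsum H₂]
  push_cast
  rw [← tsum_mul_left, ← tsum_mul_left, ← hsum₀.tsum_add hsum₁, ← (hsum₀.add hsum₁).tsum_add hsum₂]
  refine tsum_nonneg fun p => ?_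
  by_cases hp : rgh y (p : ℕ)
  · rw [LB_f_pos _ y _ hp, LB_f_pos _ y _ hp, LB_f_pos _ y _ hp]
    have hp2 : 2 ≤ (p : ℕ) := p.prop.two_le
    by_cases hn' : IsUnit ((p : ℕ) : ZMod q)
    · have hn : ((p : ℕ) : ℝ) ^ (-σ) < 1 := by
        rw [Real.rpow_neg (Nat.cast_nonneg _), inv_lt_one_iff₀]
        exact .inr <| Real.one_lt_rpow (mod_cast one_lt_two.trans_le hp2) <| zero_lt_one.trans hσ
      have hp0 : ((p : ℕ) : ℂ) ≠ 0 := by
        exact_mod_cast (show (p : ℕ) ≠ 0 by omega)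
      have hz : ‖χ (p : ℕ) * ((p : ℕ) : ℂ) ^ (-(Complex.I * t))‖ = 1 := by
        rw [norm_mul, ← hn'.unit_spec, DirichletCharacter.unit_norm_eq_one χ hn'.unit,
          ← Complex.ofReal_natCast, Complex.norm_cpow_eq_rpow_re_of_pos (mod_cast by lia)]
        simp only [Complex.neg_re, Complex.mul_re, Complex.I_re, Complex.ofReal_re, zero_mul,
          Complex.I_im, Complex.ofReal_im, mul_zero, sub_self, neg_zero, Real.rpow_zero, one_mul]
      have hmain := LB_comb' (by positivity) hn hz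
      have e0 : (((((p : ℕ) : ℝ) ^ (-σ) : ℝ)) : ℂ) = ((p : ℕ) : ℂ) ^ (-(σ : ℂ)) := by
        rw [Complex.ofReal_cpow (Nat.cast_nonneg _)]
        push_cast
        rfl
      have e1 : (((p : ℕ) : ℂ) ^ (-(σ : ℂ))) * (χ (p : ℕ) * ((p : ℕ) : ℂ) ^ (-(Complex.I * t)))
          = χ (p : ℕ) * ((p : ℕ) : ℂ) ^ (-((σ : ℂ) + Complex.I * t)) := by
        rw [neg_add, Complex.cpow_add _ _ hp0]
        ring
      have e2 : (((p : ℕ) : ℂ) ^ (-(σ : ℂ))) * (χ (p : ℕ) * ((p : ℕ) : ℂ) ^ (-(Complex.I * t))) ^ 2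
          = (χ ^ 2) (p : ℕ) * ((p : ℕ) : ℂ) ^ (-((σ : ℂ) + 2 * Complex.I * t)) := by
        rw [neg_add, Complex.cpow_add _ _ hp0,
          show -(2 * Complex.I * t) = (2 : ℕ) * -(Complex.I * t) by push_cast; ring,
          Complex.cpow_nat_mul, MulChar.pow_apply' χ two_ne_zero]
        ring
      rw [e0, e1, e2] at hmain
      rw [MulChar.one_apply hn', one_mul]
      exact hmain
    · rw [MulChar.map_nonunit _ hn', MulChar.map_nonunit _ hn', MulChar.map_nonunit _ hn']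
      simp
  · rw [LB_f_neg _ y _ hp, LB_f_neg _ y _ hp, LB_f_neg _ y _ hp]
    simp

open Classical in
private theorem LB_zeta {C : ℝ} (hC : 0 < C)
    (hRC : ∀ y u : ℝ, 2 ≤ y → 1 ≤ u → ∀ [DecidablePred (rgh y)],
      (#((Ioc 0 ⌊u⌋₊).filter fun n => rgh y n) : ℝ) ≤ 1 + C * u / Real.log y)
    {q : ℕ} (χ : DirichletCharacter ℂ q) {y : ℝ} (hy : 2 ≤ y) {σ : ℝ} (hσ : 1 < σ) (hσ2 : σ ≤ 2) :
    ‖RD χ y 0 (σ : ℂ)‖ ≤ 1 + 2 * C / ((σ - 1) * Real.log y) := by
  have hlog : 0 < Real.log y := Real.log_pos (by linarith)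
  obtain ⟨f, hf⟩ : ∃ f : ℕ → ℂ, f = fun n => if rgh y n ∧ n ≠ 1 then χ n else 0 := ⟨_, rfl⟩
  have hf1 : ∀ n, ‖f n‖ ≤ 1 := by
    intro n
    rw [hf]
    dsimp only
    split_ifs
    · exact χ.norm_le_one _
    · rw [norm_zero]; exact zero_le_one
  have hre : 1 < ((σ : ℂ)).re := by simpa using hσ
  have hS : LSeriesSummable f (σ : ℂ) :=
    LSeriesSummable_of_bounded_of_one_lt_re (fun n _ => hf1 n) hre
  have hS1 : LSeriesSummable LSeries.delta (σ : ℂ) :=
    LSeriesSummable_of_bounded_of_one_lt_re (m := 1) (fun n _ => by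
      rw [LSeries.delta]
      split_ifs
      · rw [norm_one]
      · rw [norm_zero]; exact zero_le_one) hre
  have hRD : RD χ y 0 (σ : ℂ) = LSeries f (σ : ℂ) + 1 := by
    have h1 : LSeries (f + LSeries.delta) (σ : ℂ) = LSeries f (σ : ℂ) + 1 := by
      rw [LSeries_add hS hS1, LSeries_delta, Pi.one_apply]
    rw [← h1]
    unfold RD
    refine LSeries_congr (fun {n} hn => ?_) _
    rw [Pi.add_apply, hf, LSeries.delta]
    dsimp only
    by_cases hn1 : n = 1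
    · subst hn1
      rw [if_pos (LB_rgh_one y), if_neg (fun h => h.2 rfl), if_pos rfl, pow_zero, mul_one, zero_add,
        Nat.cast_one, map_one]
    · rw [if_neg hn1, add_zero, pow_zero, mul_one]
      by_cases hr : rgh y n
      · rw [if_pos hr, if_pos ⟨hr, hn1⟩]
      · rw [if_neg hr, if_neg (fun h => hr h.1)]
  have hpart : ∀ t : ℝ, 1 ≤ t → ‖∑ k ∈ Icc 1 ⌊t⌋₊, f k‖ ≤ C / Real.log y * t := by
    intro t ht
    have h1 : ‖∑ k ∈ Icc 1 ⌊t⌋₊, f k‖ ≤ ∑ k ∈ Icc 1 ⌊t⌋₊, (if rgh y k ∧ k ≠ 1 then (1 : ℝ) else 0) := by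
      refine (norm_sum_le _ _).trans (Finset.sum_le_sum fun k _ => ?_)
      rw [hf]
      dsimp only
      split_ifs
      · exact χ.norm_le_one _
      · rw [norm_zero]
    have h2 : ∑ k ∈ Icc 1 ⌊t⌋₊, (if rgh y k ∧ k ≠ 1 then (1 : ℝ) else 0) =
        (#((Icc 1 ⌊t⌋₊).filter fun k => rgh y k ∧ k ≠ 1) : ℝ) := by
      rw [Finset.sum_ite, Finset.sum_const_zero, add_zero, Finset.sum_const, nsmul_eq_mul, mul_one]
    have h3 : (Icc 1 ⌊t⌋₊).filter (fun k => rgh y k ∧ k ≠ 1) =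
        ((Ioc 0 ⌊t⌋₊).filter fun k => rgh y k).erase 1 := by
      ext k
      simp only [Finset.mem_filter, Finset.mem_Icc, Finset.mem_erase, Finset.mem_Ioc]
      constructor
      · rintro ⟨⟨h4, h5⟩, h6, h7⟩
        exact ⟨h7, ⟨by omega, h5⟩, h6⟩
      · rintro ⟨h7, ⟨h4, h5⟩, h6⟩
        exact ⟨⟨by omega, h5⟩, h6, h7⟩
    have h4 : 1 ∈ (Ioc 0 ⌊t⌋₊).filter fun k => rgh y k := by
      rw [Finset.mem_filter, Finset.mem_Ioc]
      exact ⟨⟨zero_lt_one, Nat.le_floor (by simpa using ht)⟩, LB_rgh_one y⟩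
    have h5 := hRC y t hy ht
    have h6 : (#(((Ioc 0 ⌊t⌋₊).filter fun k => rgh y k).erase 1) : ℝ) =
        (#((Ioc 0 ⌊t⌋₊).filter fun k => rgh y k) : ℝ) - 1 := by
      rw [Finset.card_erase_of_mem h4, Nat.cast_sub (Finset.card_pos.2 ⟨1, h4⟩), Nat.cast_one]
    rw [h2, h3, h6] at h1
    have h7 : C * t / Real.log y = C / Real.log y * t := by ring
    linarith
  have hO : (fun n ↦ ∑ k ∈ Icc 1 n, f k) =O[Filter.atTop] fun n ↦ (n : ℝ) ^ (1 : ℝ) := by
    refine Asymptotics.IsBigO.of_bound (C / Real.log y) ?_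
    filter_upwards [Filter.eventually_ge_atTop 1] with n hn
    have h1 := hpart n (by exact_mod_cast hn)
    rw [Nat.floor_natCast] at h1
    rw [Real.rpow_one, Real.norm_of_nonneg (Nat.cast_nonneg n)]
    exact h1
  have hint := LSeries_eq_mul_integral f zero_le_one hre hS hO
  have hb : ‖∫ t in Set.Ioi (1 : ℝ), (∑ k ∈ Icc 1 ⌊t⌋₊, f k) * (t : ℂ) ^ (-((σ : ℂ) + 1))‖ ≤
      ∫ t in Set.Ioi (1 : ℝ), C / Real.log y * t ^ (-σ) := by
    refine MeasureTheory.norm_integral_le_of_norm_le ?_ ?_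
    · exact (integrableOn_Ioi_rpow_of_lt (by linarith) zero_lt_one).const_mul _
    · refine (MeasureTheory.ae_restrict_iff' measurableSet_Ioi).2 (Filter.Eventually.of_forall ?_)
      intro t ht
      have ht1 : (1 : ℝ) < t := ht
      have ht0 : 0 < t := by linarith
      have h1 : ‖(t : ℂ) ^ (-((σ : ℂ) + 1))‖ = t ^ (-(σ + 1)) := by
        rw [Complex.norm_cpow_eq_rpow_re_of_pos ht0]
        congr 1
      rw [norm_mul, h1]
      calc ‖∑ k ∈ Icc 1 ⌊t⌋₊, f k‖ * t ^ (-(σ + 1))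
          ≤ (C / Real.log y * t) * t ^ (-(σ + 1)) :=
            mul_le_mul_of_nonneg_right (hpart t ht1.le) (Real.rpow_nonneg ht0.le _)
        _ = C / Real.log y * t ^ (-σ) := by
            have h2 : t ^ (-σ) = t * t ^ (-(σ + 1)) := by
              have h3 : t ^ (-σ) = t ^ ((1 : ℝ) + (-(σ + 1))) := by
                congr 1; ring
              rw [h3, Real.rpow_add ht0, Real.rpow_one]
            rw [h2]; ring
  have hval : ∫ t in Set.Ioi (1 : ℝ), C / Real.log y * t ^ (-σ) = C / Real.log y * (1 / (σ - 1)) := by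
    rw [MeasureTheory.integral_const_mul, integral_Ioi_rpow_of_lt (by linarith) zero_lt_one,
      Real.one_rpow]
    congr 1
    have h1 : σ - 1 ≠ 0 := by linarith
    have h2 : -σ + 1 ≠ 0 := by
      intro h; apply h1; linarith
    rw [div_eq_div_iff h2 h1]
    ring
  rw [hRD, hint]
  have hσ1 : 0 < σ - 1 := by linarith
  calc ‖(σ : ℂ) * (∫ t in Set.Ioi (1 : ℝ), (∑ k ∈ Icc 1 ⌊t⌋₊, f k) * (t : ℂ) ^ (-((σ : ℂ) + 1))) + 1‖
      ≤ ‖(σ : ℂ)‖ * ‖∫ t in Set.Ioi (1 : ℝ), (∑ k ∈ Icc 1 ⌊t⌋₊, f k) *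
          (t : ℂ) ^ (-((σ : ℂ) + 1))‖ + 1 := by
        refine (norm_add_le _ _).trans ?_
        rw [norm_mul, norm_one]
    _ ≤ 2 * (C / Real.log y * (1 / (σ - 1))) + 1 := by
        have h1 : ‖(σ : ℂ)‖ ≤ 2 := by
          rw [Complex.norm_real, Real.norm_of_nonneg (by linarith)]; exact hσ2
        rw [hval] at hb
        have h2 : 0 ≤ C / Real.log y * (1 / (σ - 1)) := by positivity
        have h3 := mul_le_mul h1 hb (norm_nonneg _) (by norm_num : (0 : ℝ) ≤ 2)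
        linarith
    _ = 1 + 2 * C / ((σ - 1) * Real.log y) := by
        field_simp
        ring

open Classical in
private theorem LB_deriv {q : ℕ} (χ : DirichletCharacter ℂ q) (y : ℝ) {s : ℂ} (hs : 1 < s.re) :
    HasDerivAt (fun z => RD χ y 0 z) (-RD χ y 1 s) s := by
  have hb : LSeries.abscissaOfAbsConv (fun n => if rgh y n then χ n * (Real.log n : ℂ) ^ 0 else 0) <
      s.re := by
    refine lt_of_le_of_lt (LSeries.abscissaOfAbsConv_le_of_le_const ⟨1, fun n _ => ?_⟩) ?_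
    · split_ifs
      · rw [pow_zero, mul_one]; exact χ.norm_le_one _
      · rw [norm_zero]; exact zero_le_one
    · exact_mod_cast hs
  have h1 := LSeries_hasDerivAt hb
  have h2 : RD χ y 1 s = LSeries (LSeries.logMul
      (fun n => if rgh y n then χ n * (Real.log n : ℂ) ^ 0 else 0)) s := by
    unfold RD
    refine LSeries_congr (fun {n} hn => ?_) _
    rw [LSeries.logMul]
    split_ifs
    · rw [pow_one, pow_zero, mul_one, ← Complex.natCast_log, mul_comm]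
    · rw [mul_zero]
  rw [h2]
  exact h1

private theorem LB_big : ∃ x₀ : ℝ, ∀ x : ℝ, x₀ ≤ x → 2 ≤ x ∧ 1 ≤ dl x ∧ 1 ≤ ll2 x := by
  refine ⟨Real.exp (Real.exp 1), fun x hx => ?_⟩
  have h1 : (1 : ℝ) ≤ Real.exp 1 := by
    have := Real.add_one_le_exp (1 : ℝ)
    linarith
  have h2 : (2 : ℝ) ≤ Real.exp 1 := by
    have := Real.add_one_le_exp (1 : ℝ)
    linarith
  have h3 : Real.exp 1 ≤ Real.exp (Real.exp 1) := Real.exp_le_exp.2 h1
  have hx0 : 0 < x := lt_of_lt_of_le (Real.exp_pos _) hx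
  have hl : Real.exp 1 ≤ Real.log x := by
    rw [Real.le_log_iff_exp_le hx0]; exact hx
  refine ⟨by linarith, ?_, ?_⟩
  · unfold dl
    exact Real.one_le_rpow (by linarith) (by norm_num)
  · unfold ll2
    rw [Real.le_log_iff_exp_le (by linarith)]
    exact hl

theorem LB (hLD : LD_stmt) (hRC : RC_stmt) : LB_stmt := by
  intro B K
  obtain ⟨B₁, C₁, x₁, hC₁, hLD1⟩ := hLD 1 B (K + 1)
  obtain ⟨C₂, hC₂, hRC1⟩ := hRC
  obtain ⟨x₂, hx₂⟩ := LB_big
  obtain ⟨A, hA⟩ : ∃ A : ℝ, A = 1 + C₁ + 2 * C₂ := ⟨_, rfl⟩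
  have hA1 : 1 ≤ A := by rw [hA]; linarith
  have hA0 : 0 < A := by linarith
  obtain ⟨ε, hε⟩ : ∃ ε : ℝ, ε = 1 / (2 * A ^ 2) := ⟨_, rfl⟩
  have hε0 : 0 < ε := by rw [hε]; positivity
  have hε1 : ε ≤ 1 := by
    rw [hε, div_le_one (by positivity)]
    nlinarith [one_le_pow₀ hA1 (n := 2)]
  have hεA : ε * A = 1 / (2 * A) := by
    rw [hε]; field_simp
  refine ⟨B₁, ε ^ 3 / (2 * A), max x₁ x₂, by positivity, ?_⟩
  intro x hx q hq hqx χ s hs
  have hxx₁ : x₁ ≤ x := (le_max_left _ _).trans hx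
  obtain ⟨hx2, hD1, hl1⟩ := hx₂ x ((le_max_right _ _).trans hx)
  obtain ⟨hs1, hs2, hs3, hs4⟩ := hs
  have hlogx : 0 < Real.log x := Real.log_pos (by linarith)
  obtain ⟨D, hD⟩ : ∃ D, D = dl x := ⟨_, rfl⟩
  obtain ⟨l, hl⟩ : ∃ l, l = ll2 x := ⟨_, rfl⟩
  rw [← hD] at hD1
  rw [← hl] at hl1
  have hl0 : 0 < l := by linarith
  have hD0 : 0 < D := by linarith
  rw [← hl, ← hD]
  have hLD' : ∀ (χ' : DirichletCharacter ℂ q) (z : ℂ), Rng B₁ (K + 1) x z → ∀ j ≤ 1,
      ‖RD χ' (Real.exp D) j z‖ ≤ C₁ * D ^ j * l ^ (j + 1) := by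
    intro χ' z hz j hj
    rw [hD, hl]
    exact hLD1 x hxx₁ q hq hqx χ' z hz j hj
  have hpow : x ^ K ≤ x ^ (K + 1) := pow_le_pow_right₀ (by linarith) (Nat.le_succ K)
  have hy2 : 2 ≤ Real.exp D := by
    have := Real.add_one_le_exp D
    linarith
  -- the bound to the right of the line
  have key : ∀ z : ℂ, Rng B₁ K x z → ε ^ 4 / (l ^ 9 * D) ≤ z.re - 1 →
      ε ^ 3 / (A * l ^ 7) ≤ ‖RD χ (Real.exp D) 0 z‖ := by
    intro z hz hz0
    obtain ⟨hz1, hz2, hz3, hz4⟩ := hz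
    have hσ : 1 < z.re := by
      have : 0 < 1 / Real.log x := by positivity
      linarith
    have h1 := LB_341 χ (Real.exp D) hσ z.im
    have e1 : ((z.re : ℂ) + Complex.I * z.im) = z := by
      apply Complex.ext <;> simp
    rw [e1] at h1
    have h2 : ‖RD (1 : DirichletCharacter ℂ q) (Real.exp D) 0 (z.re : ℂ)‖ ≤ A * l ^ 9 / ε ^ 4 := by
      refine (LB_zeta hC₂ hRC1 1 hy2 hσ hz2).trans ?_
      rw [Real.log_exp]
      have h3 : ε ^ 4 / l ^ 9 ≤ (z.re - 1) * D := by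
        have := mul_le_mul_of_nonneg_right hz0 hD0.le
        have h4 : ε ^ 4 / (l ^ 9 * D) * D = ε ^ 4 / l ^ 9 := by field_simp
        linarith
      have h5 : 2 * C₂ / ((z.re - 1) * D) ≤ 2 * C₂ / (ε ^ 4 / l ^ 9) :=
        div_le_div_of_nonneg_left (by positivity) (by positivity) h3
      have h6 : 2 * C₂ / (ε ^ 4 / l ^ 9) = 2 * C₂ * l ^ 9 / ε ^ 4 := by field_simp
      have h7 : 1 ≤ 1 * l ^ 9 / ε ^ 4 := by
        rw [one_mul, one_le_div (by positivity)]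
        exact (pow_le_one₀ hε0.le hε1).trans (one_le_pow₀ hl1)
      have h8 : 1 * l ^ 9 / ε ^ 4 + 2 * C₂ * l ^ 9 / ε ^ 4 ≤ A * l ^ 9 / ε ^ 4 := by
        rw [← add_div, ← add_mul]
        refine div_le_div_of_nonneg_right (mul_le_mul_of_nonneg_right ?_ (by positivity))
          (by positivity)
        rw [hA]; linarith
      linarith
    have h3 : ‖RD (χ ^ 2) (Real.exp D) 0 ((z.re : ℂ) + 2 * Complex.I * z.im)‖ ≤ A * l := by
      have hR : Rng B₁ (K + 1) x ((z.re : ℂ) + 2 * Complex.I * z.im) := by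
        have hre : ((z.re : ℂ) + 2 * Complex.I * z.im).re = z.re := by simp
        have him : ((z.re : ℂ) + 2 * Complex.I * z.im).im = 2 * z.im := by simp
        unfold Rng
        rw [hre, him, abs_mul, abs_two]
        refine ⟨hz1, hz2, by linarith [abs_nonneg z.im], ?_⟩
        rw [pow_succ]
        have hxK : 0 ≤ x ^ K := pow_nonneg (by linarith) _
        nlinarith
      have := hLD' (χ ^ 2) _ hR 0 (Nat.zero_le _)
      rw [pow_zero, mul_one, zero_add, pow_one] at this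
      refine this.trans (mul_le_mul_of_nonneg_right ?_ hl0.le)
      rw [hA]; linarith
    obtain ⟨L, hL⟩ : ∃ L, L = ‖RD χ (Real.exp D) 0 z‖ := ⟨_, rfl⟩
    rw [← hL] at h1 ⊢
    have hL0 : 0 ≤ L := by rw [hL]; exact norm_nonneg _
    have h4 : 1 ≤ (A * l ^ 9 / ε ^ 4) ^ 3 * L ^ 4 * (A * l) := by
      refine h1.trans ?_
      gcongr
    have h5 : (A * l ^ 9 / ε ^ 4) ^ 3 * L ^ 4 * (A * l) = (A * l ^ 7 / ε ^ 3 * L) ^ 4 := by
      field_simp
    rw [h5] at h4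
    have h6 : 1 ≤ A * l ^ 7 / ε ^ 3 * L := by
      by_contra hcon
      push Not at hcon
      have : (A * l ^ 7 / ε ^ 3 * L) ^ 4 < 1 := pow_lt_one₀ (by positivity) hcon (by norm_num)
      linarith
    rw [div_le_iff₀ (by positivity)]
    have h7 : A * l ^ 7 / ε ^ 3 * L * ε ^ 3 = L * (A * l ^ 7) := by field_simp
    have h8 := mul_le_mul_of_nonneg_right h6 (show 0 ≤ ε ^ 3 by positivity)
    linarith
  have hfin : ε ^ 3 / (2 * A) / l ^ 7 ≤ ε ^ 3 / (A * l ^ 7) := by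
    rw [div_div]
    refine div_le_div_of_nonneg_left (by positivity) (by positivity) ?_
    nlinarith [show 0 < A * l ^ 7 by positivity]
  by_cases hcase : ε ^ 4 / (l ^ 9 * D) ≤ s.re - 1
  · exact hfin.trans (key s ⟨hs1, hs2, hs3, hs4⟩ hcase)
  · push Not at hcase
    obtain ⟨δ, hδ⟩ : ∃ δ, δ = ε ^ 4 / (l ^ 9 * D) := ⟨_, rfl⟩
    rw [← hδ] at hcase key
    have hδ0 : 0 < δ := by rw [hδ]; positivity
    have hδ1 : δ ≤ 1 := by
      rw [hδ, div_le_one (by positivity)]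
      have h1 : ε ^ 4 ≤ 1 := pow_le_one₀ hε0.le hε1
      have h2 : 1 ≤ l ^ 9 := one_le_pow₀ hl1
      nlinarith
    obtain ⟨z, hz⟩ : ∃ z : ℂ, z = ⟨1 + δ, s.im⟩ := ⟨_, rfl⟩
    have hzre : z.re = 1 + δ := by rw [hz]
    have hzim : z.im = s.im := by rw [hz]
    have hzR : Rng B₁ K x z := by
      unfold Rng
      rw [hzre, hzim]
      exact ⟨by linarith, by linarith, hs3, hs4⟩
    have h1 := key z hzR (by rw [hzre]; linarith)
    -- mean value inequality on the segment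
    have hseg : ∀ w ∈ {w : ℂ | w.re ∈ Set.Icc s.re (1 + δ) ∧ w.im = s.im},
        Rng B₁ (K + 1) x w ∧ 1 < w.re := by
      intro w hw
      obtain ⟨⟨hw1, hw2⟩, hw3⟩ := hw
      have : 0 < 1 / Real.log x := by positivity
      refine ⟨⟨by linarith, by linarith, ?_, ?_⟩, by linarith⟩
      · rw [hw3]; exact hs3
      · rw [hw3]; exact hs4.trans hpow
    have hconv : Convex ℝ {w : ℂ | w.re ∈ Set.Icc s.re (1 + δ) ∧ w.im = s.im} := by
      intro w hw w' hw' a b ha hb hab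
      obtain ⟨⟨hw1, hw2⟩, hw3⟩ := hw
      obtain ⟨⟨hw1', hw2'⟩, hw3'⟩ := hw'
      have hre : (a • w + b • w').re = a * w.re + b * w'.re := by simp
      have him : (a • w + b • w').im = a * w.im + b * w'.im := by simp
      have hb' : b = 1 - a := by linarith
      refine ⟨⟨?_, ?_⟩, ?_⟩
      · rw [hre]; subst hb'; nlinarith
      · rw [hre]; subst hb'; nlinarith
      · rw [him, hw3, hw3', ← add_mul, hab, one_mul]
    have hmv := Convex.norm_image_sub_le_of_norm_hasDerivWithin_le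
      (f := fun w => RD χ (Real.exp D) 0 w) (f' := fun w => -RD χ (Real.exp D) 1 w)
      (C := C₁ * D * l ^ 2)
      (s := {w : ℂ | w.re ∈ Set.Icc s.re (1 + δ) ∧ w.im = s.im}) (x := z) (y := s)
      (fun w hw => (LB_deriv χ (Real.exp D) (hseg w hw).2).hasDerivWithinAt)
      (fun w hw => by
        rw [norm_neg]
        have := hLD' χ w (hseg w hw).1 1 le_rfl
        rwa [pow_one] at this)
      hconv
      ⟨⟨by rw [hzre]; linarith, by rw [hzre]⟩, hzim⟩
      ⟨⟨le_rfl, by linarith⟩, rfl⟩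
    have hdist : ‖s - z‖ ≤ δ := by
      have h2 : s - z = ((s.re - (1 + δ) : ℝ) : ℂ) := by
        apply Complex.ext
        · rw [Complex.sub_re, hzre, Complex.ofReal_re]
        · rw [Complex.sub_im, hzim, Complex.ofReal_im, sub_self]
      rw [h2, Complex.norm_real, Real.norm_eq_abs, abs_le]
      have : 0 < 1 / Real.log x := by positivity
      constructor <;> linarith
    have h3 : ‖RD χ (Real.exp D) 0 s - RD χ (Real.exp D) 0 z‖ ≤ A * D * l ^ 2 * δ := by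
      refine hmv.trans ?_
      have h4 : C₁ ≤ A := by rw [hA]; linarith
      gcongr
    have h4 : A * D * l ^ 2 * δ = ε ^ 3 / (2 * A) / l ^ 7 := by
      rw [hδ]
      have h5 : A * D * l ^ 2 * (ε ^ 4 / (l ^ 9 * D)) = (ε * A) * ε ^ 3 / l ^ 7 := by
        field_simp
      rw [h5, hεA]
      field_simp
    have h5 : ε ^ 3 / (A * l ^ 7) = ε ^ 3 / (2 * A) / l ^ 7 + ε ^ 3 / (2 * A) / l ^ 7 := by
      field_simp
      ring
    have h6 := norm_sub_norm_le (RD χ (Real.exp D) 0 z) (RD χ (Real.exp D) 0 s)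
    rw [norm_sub_rev] at h6
    linarith

end Pool.Agent.CH
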